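import Pool.Agent.MP_b9875a_co.H99.Spec2

/-! If no vertex can become a target, two cheap large sets are almost disjoint. -/

set_option autoImplicit false

namespace Pool.Agent.MP_b9875a_co.H55

open Finset Pool.Agent.MP_b9875a_co.H99.LN

namespace TL

variable {V α : Type} [DecidableEq V] {tl hd : α → V} {D : Finset α}

lemma ex_eq (v : V) (X : Finset V) : ex tl hd D v X =
    ∑ a ∈ D.filter (fun a => tl a = v), if hd a ∉ X then 1 else 0 := by
  rw [ex, ← card_filter, filter_filter]

lemma ex_anti (v : V) {X Y : Finset V} (h : X ⊆ Y) : ex tl hd D v Y ≤ ex tl hd D v X :=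
  card_le_card fun a ha => by
    rw [mem_filter] at ha ⊢
    exact ⟨ha.1, ha.2.1, fun h' => ha.2.2 (h h')⟩

lemma ex_mod (v : V) (X Y : Finset V) :
    ex tl hd D v (X ∩ Y) + ex tl hd D v (X ∪ Y) = ex tl hd D v X + ex tl hd D v Y := by
  simp only [ex_eq, ← sum_add_distrib]
  refine sum_congr rfl fun a _ => ?_
  by_cases h1 : hd a ∈ X <;> by_cases h2 : hd a ∈ Y <;> simp [h1, h2]

lemma sum_ind {Z U : Finset V} (h : Z ⊆ U) (f : V → ℕ) :
    ∑ v ∈ Z, f v = ∑ v ∈ U, if v ∈ Z then f v else 0 := by
  rw [sum_ite_mem, inter_eq_right.2 h]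

lemma mval_submod (c : V → ℕ) (X Y : Finset V) :
    mval c tl hd D (X ∩ Y) + mval c tl hd D (X ∪ Y) ≤ mval c tl hd D X + mval c tl hd D Y := by
  unfold mval
  rw [sum_ind (inter_subset_union (s := X) (t := Y)), sum_ind (subset_union_left (s₁ := X) (s₂ := Y)),
    sum_ind (subset_union_right (s₁ := X) (s₂ := Y)), ← sum_add_distrib, ← sum_add_distrib]
  refine sum_le_sum fun v hv => ?_
  have e := ex_mod (tl := tl) (hd := hd) (D := D) v X Y
  have a1 := ex_anti (tl := tl) (hd := hd) (D := D) v (subset_union_left (s₁ := X) (s₂ := Y))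
  have a2 := ex_anti (tl := tl) (hd := hd) (D := D) v (subset_union_right (s₁ := X) (s₂ := Y))
  by_cases h1 : v ∈ X <;> by_cases h2 : v ∈ Y
  · simp only [mem_inter, h1, h2, and_self, if_true]; omega
  · simp only [mem_inter, h1, h2, and_false, if_true, if_false]; omega
  · simp only [mem_inter, h1, h2, false_and, if_true, if_false]; omega
  · simp [h1, h2] at hv

lemma dem_mod (dem : V → ℕ) (S X Y : Finset V) :
    ∑ v ∈ S \ (X ∩ Y), dem v + ∑ v ∈ S \ (X ∪ Y), dem v =
      ∑ v ∈ S \ X, dem v + ∑ v ∈ S \ Y, dem v := by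
  rw [sdiff_inter_distrib_right, sdiff_union_distrib, sum_union_inter]

/-- the members of `I` whose set misses `w` -/
def miss (R : V → Finset V) (I : Finset V) (w : V) : Finset V := I.filter fun b => w ∉ R b

/-- the points of `S` missed at most `t` times -/
def lv (S : Finset V) (R : V → Finset V) (I : Finset V) (t : ℕ) : Finset V :=
  S.filter fun w => (miss R I w).card ≤ t

/-- the number of arcs from `v` to a point that is missed by a set containing `v` -/
def up (tl hd : α → V) (D : Finset α) (R : V → Finset V) (I : Finset V) (v : V) : ℕ :=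
  ∑ a ∈ D.filter (fun a => tl a = v), if miss R I (hd a) ⊆ miss R I v then 0 else 1

variable {S : Finset V} {R : V → Finset V} {c dem : V → ℕ} {θ K : ℕ}

lemma mem_lv0 {I : Finset V} {w : V} : w ∈ lv S R I 0 ↔ w ∈ S ∧ ∀ b ∈ I, w ∈ R b := by
  simp [lv, miss, filter_eq_empty_iff]

lemma lv_sub (I : Finset V) (t : ℕ) : lv S R I t ⊆ S := filter_subset _ _

lemma lv_mono (I : Finset V) {s t : ℕ} (h : s ≤ t) : lv S R I s ⊆ lv S R I t := fun w hw => by
  rw [lv, mem_filter] at hw ⊢
  exact ⟨hw.1, hw.2.trans h⟩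

lemma lv0_insert (I : Finset V) (a : V) : lv S R (insert a I) 0 = lv S R I 0 ∩ R a := by
  ext w
  simp only [mem_lv0, mem_inter, forall_mem_insert]
  tauto

lemma lv0_empty : lv S R ∅ 0 = S := by ext w; simp [mem_lv0]

lemma dem_lev (I : Finset V) : ∑ b ∈ I, ∑ v ∈ S \ R b, dem v =
    ∑ t ∈ range I.card, ∑ v ∈ S \ lv S R I t, dem v := by
  simp only [fun b => sum_ind (sdiff_subset (s := S) (t := R b)) dem,
    fun t => sum_ind (sdiff_subset (s := S) (t := lv S R I t)) dem]
  rw [sum_comm, sum_comm (s := range I.card)]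
  refine sum_congr rfl fun v hv => ?_
  rw [← sum_filter, ← sum_filter, sum_const, sum_const]
  congr 1
  have e1 : I.filter (fun b => v ∈ S \ R b) = miss R I v := by
    ext b; simp [miss, hv]
  have e2 : (range I.card).filter (fun t => v ∈ S \ lv S R I t) = range (miss R I v).card := by
    have : (miss R I v).card ≤ I.card := card_filter_le _ _
    ext t
    simp only [mem_filter, mem_range, mem_sdiff, lv, hv, true_and, not_le]
    omega
  rw [e1, e2, card_range]

lemma arc_lev (hD : ∀ a ∈ D, hd a ∈ S) (I : Finset V) (v : V) :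
    up tl hd D R I v + ∑ t ∈ range I.card,
      (if (miss R I v).card < t then ex tl hd D v (lv S R I t) else 0) ≤
      ∑ b ∈ I, if v ∈ R b then ex tl hd D v (R b) else 0 := by
  have e1 : ∀ (p : Prop) [Decidable p] (X : Finset V), (if p then ex tl hd D v X else 0) =
      ∑ a ∈ D.filter (fun a => tl a = v), if p ∧ hd a ∉ X then 1 else 0 := by
    intro p _ X
    by_cases h : p <;> simp [h, ex_eq]
  simp only [e1]
  rw [sum_comm, sum_comm (s := I), up, ← sum_add_distrib]
  refine sum_le_sum fun a ha => ?_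
  rw [← card_filter, ← card_filter]
  have e2 : I.filter (fun b => v ∈ R b ∧ hd a ∉ R b) = miss R I (hd a) \ miss R I v := by
    ext b; simp only [miss, mem_filter, mem_sdiff]; tauto
  have e3 : (range I.card).filter (fun t => (miss R I v).card < t ∧ hd a ∉ lv S R I t) ⊆
      Ioo (miss R I v).card (miss R I (hd a)).card := fun t ht => by
    simp only [mem_filter, lv, hD a (mem_filter.1 ha).1, true_and, not_le] at ht
    exact mem_Ioo.2 ht.2
  have e4 := card_le_card e3
  rw [Nat.card_Ioo] at e4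
  have e5 := le_card_sdiff (miss R I v) (miss R I (hd a))
  rw [e2]
  split_ifs with h
  · have := card_le_card h
    omega
  · have : 0 < (miss R I (hd a) \ miss R I v).card :=
      card_pos.2 (sdiff_nonempty.2 h)
    omega

lemma ex_lev (hD : ∀ a ∈ D, hd a ∈ S) (I : Finset V) (v : V) :
    ex tl hd D v (lv S R I (miss R I v).card) ≤ up tl hd D R I v := by
  rw [ex_eq, up]
  refine sum_le_sum fun a ha => ?_
  by_cases h : miss R I (hd a) ⊆ miss R I v
  · rw [if_pos h, if_neg]
    exact not_not.2 (mem_filter.2 ⟨hD a (mem_filter.1 ha).1, card_le_card h⟩)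
  · rw [if_neg h]; split_ifs <;> omega

/-- the hypotheses, for a family `F` of cheap sets -/
structure Hy (tl hd : α → V) (D : Finset α) (S : Finset V) (c dem : V → ℕ) (θ K : ℕ)
    (R : V → Finset V) (F : Finset V) : Prop where
  hK : 1 ≤ K
  hD : ∀ a ∈ D, hd a ∈ S
  hc : ∀ v ∈ S, c v = 0 ∨ 12 * K ≤ c v
  big : θ ≤ S.card
  rich : ∀ v ∈ S, 1 ≤ c v → ∀ X, X ⊆ S → X.card < θ → 24 * K ≤ ex tl hd D v X
  adm : Adm S θ dem (fun v => min (c v) K) tl hd D
  sub : ∀ b ∈ F, R b ⊆ S
  lg : ∀ b ∈ F, θ ≤ (R b).card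
  bad : ∀ b ∈ F, mval c tl hd D (R b) ≤ ∑ v ∈ S \ R b, dem v + K
  bad' : ∀ b ∈ F, ∀ v ∈ R b, 1 ≤ c v → ex tl hd D v (R b) < 2 * K

lemma mval_mono (X : Finset V) :
    mval (fun v => min (c v) K) tl hd D X ≤ mval c tl hd D X :=
  sum_le_sum fun v _ => by beta_reduce; omega

/-- the excess of `mval c` over `mval (min c K)` on a subset -/
lemma excess {X P : Finset V} (hP : P ⊆ X) {q : ℕ}
    (h : ∀ v ∈ P, q + K ≤ c v ∧ q + K ≤ ex tl hd D v X) :
    mval (fun v => min (c v) K) tl hd D X + P.card * q ≤ mval c tl hd D X := by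
  unfold mval
  rw [← smul_eq_mul, ← sum_const, sum_ind hP, ← sum_add_distrib]
  refine sum_le_sum fun v _ => ?_
  beta_reduce
  split_ifs with hv
  · have := h v hv; omega
  · omega

namespace Hy

variable {F : Finset V} (H : Hy tl hd D S c dem θ K R F)
include H

lemma adm' {X : Finset V} (h : X ⊆ S) (hl : θ ≤ X.card) :
    ∑ v ∈ S \ X, dem v ≤ mval c tl hd D X := (H.adm X h hl).trans (mval_mono X)

lemma chain (I : Finset V) (hI : I ⊆ F) :
    mval c tl hd D (lv S R I 0) ≤ ∑ v ∈ S \ lv S R I 0, dem v + I.card * K := by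
  induction I using Finset.induction_on with
  | empty =>
    rw [lv0_empty]
    refine (sum_eq_zero fun v _ => ?_).le.trans (Nat.zero_le _)
    rw [ex, filter_eq_empty_iff.2 fun a ha h => h.2 (H.hD a ha), card_empty, Nat.min_zero]
  | insert a I ha ih =>
    have ha' := hI (mem_insert_self a I)
    have h1 := ih ((subset_insert a I).trans hI)
    have h2 := mval_submod (tl := tl) (hd := hd) (D := D) c (lv S R I 0) (R a)
    have h3 := dem_mod dem S (lv S R I 0) (R a)
    have h4 := H.adm' (union_subset (lv_sub (R := R) I 0) (H.sub a ha'))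
      ((H.lg a ha').trans (card_le_card subset_union_right))
    have h5 := H.bad a ha'
    rw [lv0_insert, card_insert_of_notMem ha, add_mul, one_mul]
    omega

lemma first (I : Finset V) (hI : I ⊆ F) (h : (lv S R I 0).card < θ) :
    ∃ J a, J ⊆ F ∧ a ∈ F ∧ J.card < I.card ∧ θ ≤ (lv S R J 0).card ∧
      (lv S R J 0 ∩ R a).card < θ := by
  induction I using Finset.induction_on with
  | empty => rw [lv0_empty] at h; exact absurd H.big (by omega)
  | insert a I ha ih =>
    rw [card_insert_of_notMem ha]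
    by_cases h' : (lv S R I 0).card < θ
    · obtain ⟨J, b, h1, h2, h3, h4⟩ := ih ((subset_insert a I).trans hI) h'
      exact ⟨J, b, h1, h2, by omega, h4⟩
    · exact ⟨I, a, (subset_insert a I).trans hI, hI (mem_insert_self a I), by omega, by omega,
        lv0_insert (S := S) (R := R) I a ▸ h⟩

lemma level (I : Finset V) (hI : I ⊆ F) (t₀ Φ : ℕ) (hl : ∀ t, t₀ ≤ t → θ ≤ (lv S R I t).card)
    (hΦ : ∀ t < t₀, ∑ v ∈ S \ lv S R I t, dem v ≤ Φ) :
    ∑ v ∈ S.filter (fun v => 1 ≤ c v), up tl hd D R I v ≤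
      ∑ v ∈ S.filter (fun v => 1 ≤ c v),
        (if t₀ ≤ (miss R I v).card then min K (up tl hd D R I v) else 0) + t₀ * Φ + I.card * K := by
  set A := S.filter (fun v => 1 ≤ c v) with hA
  have h1 : ∑ v ∈ A, ∑ b ∈ I, (if v ∈ R b then ex tl hd D v (R b) else 0) ≤
      ∑ b ∈ I, mval c tl hd D (R b) := by
    rw [sum_comm]
    refine sum_le_sum fun b hb => ?_
    rw [mval, sum_ind (H.sub b (hI hb)), hA, sum_filter]
    refine sum_le_sum fun v hv => ?_
    split_ifs with h h'
    · have := H.bad' b (hI hb) v h' h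
      have := H.hc v hv
      omega
    all_goals exact Nat.zero_le _
  have h2 : ∑ b ∈ I, mval c tl hd D (R b) ≤
      ∑ t ∈ range I.card, ∑ v ∈ S \ lv S R I t, dem v + I.card * K := by
    rw [← dem_lev, ← smul_eq_mul, ← sum_const, ← sum_add_distrib]
    exact sum_le_sum fun b hb => H.bad b (hI hb)
  have h3 : ∀ t, ∑ v ∈ S \ lv S R I t, dem v ≤ (if t < t₀ then Φ else 0) + ∑ v ∈ A,
      if t₀ ≤ t ∧ (miss R I v).card ≤ t then min K (ex tl hd D v (lv S R I t)) else 0 := by
    intro t
    by_cases ht : t < t₀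
    · rw [if_pos ht]; exact (hΦ t ht).trans (Nat.le_add_right _ _)
    · rw [if_neg ht, zero_add]
      refine (H.adm _ (lv_sub I t) (hl t (by omega))).trans ?_
      rw [mval, sum_ind (lv_sub I t), hA, sum_filter]
      refine sum_le_sum fun v hv => ?_
      by_cases h : v ∈ lv S R I t
      · rw [if_pos h]
        by_cases h' : 1 ≤ c v
        · rw [if_pos h', if_pos ⟨by omega, (mem_filter.1 h).2⟩]; omega
        · omega
      · rw [if_neg h]; exact Nat.zero_le _
  have h4 : ∑ t ∈ range I.card, (if t < t₀ then Φ else 0) ≤ t₀ * Φ := by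
    rw [← sum_filter, sum_const, smul_eq_mul]
    refine Nat.mul_le_mul_right _ ((card_le_card fun t ht => ?_).trans (card_range t₀).le)
    exact mem_range.2 (mem_filter.1 ht).2
  have h5 : ∀ v, ∑ t ∈ range I.card,
      (if t₀ ≤ t ∧ (miss R I v).card ≤ t then min K (ex tl hd D v (lv S R I t)) else 0) ≤
      (if t₀ ≤ (miss R I v).card then min K (up tl hd D R I v) else 0) + ∑ t ∈ range I.card,
        (if (miss R I v).card < t then ex tl hd D v (lv S R I t) else 0) := by
    intro v
    have e := ex_lev (tl := tl) (R := R) H.hD I v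
    calc _ ≤ ∑ t ∈ range I.card, ((if t = (miss R I v).card then
            (if t₀ ≤ (miss R I v).card then min K (up tl hd D R I v) else 0) else 0) +
          (if (miss R I v).card < t then ex tl hd D v (lv S R I t) else 0)) := by
          refine sum_le_sum fun t _ => ?_
          by_cases e' : t = (miss R I v).card
          · rw [e']; split_ifs <;> omega
          · split_ifs <;> omega
      _ ≤ _ := by
          rw [sum_add_distrib, sum_ite_eq']
          split_ifs <;> omega
  have h6 := sum_le_sum fun v (_ : v ∈ A) => arc_lev (tl := tl) (R := R) H.hD I v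
  have h7 := sum_le_sum fun t (_ : t ∈ range I.card) => h3 t
  have h8 := sum_le_sum fun v (_ : v ∈ A) => h5 v
  rw [sum_add_distrib] at h6 h8
  rw [sum_add_distrib, sum_comm (s := range I.card) (t := A)] at h7
  omega

variable {p : V → V} (hp : ∀ a ∈ F, p a ∈ S ∧ 1 ≤ c (p a) ∧ p a ∉ R a ∧ ∀ b ∈ F, b ≠ a → p a ∈ R b)
include hp

omit H in
lemma p_inj : Set.InjOn p F := fun a ha b hb e => by
  by_contra h
  exact (hp a ha).2.2.1 (e ▸ (hp b hb).2.2.2 a ha h)

lemma faces (I : Finset V) (hI : I ⊆ F) (h : 12 * I.card ≤ 11 * F.card) :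
    θ ≤ (lv S R I 0).card := by
  induction I using Finset.induction_on with
  | empty => rw [lv0_empty]; exact H.big
  | insert a I ha ih =>
    have hI' := (subset_insert a I).trans hI
    have ha' := hI (mem_insert_self a I)
    have hc := card_insert_of_notMem ha
    have h1 := ih hI' (by omega)
    by_contra h2
    have hm : ∀ b ∈ F \ insert a I, p b ∈ lv S R (insert a I) 0 := fun b hb =>
      mem_lv0.2 ⟨(hp b (mem_sdiff.1 hb).1).1, fun b' hb' => (hp b (mem_sdiff.1 hb).1).2.2.2 b'
        (hI hb') fun e => (mem_sdiff.1 hb).2 (e ▸ hb')⟩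
    have h3 := excess (tl := tl) (hd := hd) (D := D) (c := c) (K := K) (q := 11 * K)
      (X := lv S R I 0) (P := (F \ insert a I).image p)
      (fun v hv => by
        obtain ⟨b, hb, rfl⟩ := mem_image.1 hv
        have := hm b hb
        rw [lv0_insert] at this
        exact (mem_inter.1 this).1)
      (fun v hv => by
        obtain ⟨b, hb, rfl⟩ := mem_image.1 hv
        have hb' := hp b (mem_sdiff.1 hb).1
        have e1 := H.rich _ hb'.1 hb'.2.1 _ (lv_sub _ 0) (not_le.1 h2)
        have e0 := hm b hb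
        rw [lv0_insert] at e0 e1
        have e2 := ex_mod (tl := tl) (hd := hd) (D := D) (p b) (lv S R I 0) (R a)
        have e3 := H.bad' a ha' _ (mem_inter.1 e0).2 hb'.2.1
        have e4 := H.hc _ hb'.1
        omega)
    rw [card_image_of_injOn ((p_inj hp).mono (coe_subset.2 sdiff_subset)),
      card_sdiff_of_subset hI] at h3
    have h4 := H.chain I hI'
    have h5 := H.adm _ (lv_sub I 0) h1
    have h6 : (F.card - (insert a I).card) * (11 * K) ≤ I.card * K := by omega
    rw [← mul_assoc] at h6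
    have h7 := Nat.le_of_mul_le_mul_right h6 H.hK
    have h8 := card_le_card hI
    omega

lemma small (hM : 12 ≤ F.card) :
    11 * (F.filter fun a => (lv S R (F.erase a) 0).card < θ).card ≤ F.card := by
  obtain ⟨G, hG, hG'⟩ := exists_subset_card_eq (s := F) (n := F.card / 12 + 1) (by omega)
  obtain ⟨G', hG1, hG1'⟩ := exists_subset_card_eq (s := F \ G) (n := F.card / 12 + 1)
    (by rw [card_sdiff_of_subset hG]; omega)
  have key : ∀ G ⊆ F, G.card = F.card / 12 + 1 →
      ∑ a ∈ F, (up tl hd D R (F \ G) (p a) - K) ≤ F.card * K := by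
    intro G hG hG'
    have h1 := H.faces hp (F \ G) sdiff_subset (by rw [card_sdiff_of_subset hG]; omega)
    have h2 := H.level (F \ G) sdiff_subset 0 0
      (fun t _ => h1.trans (card_le_card (lv_mono _ (Nat.zero_le t)))) (fun t ht => by omega)
    simp only [Nat.zero_le, if_true, mul_zero, add_zero] at h2
    have h3 : ∑ v ∈ S.filter (fun v => 1 ≤ c v), up tl hd D R (F \ G) v =
        ∑ v ∈ S.filter (fun v => 1 ≤ c v), min K (up tl hd D R (F \ G) v) +
        ∑ v ∈ S.filter (fun v => 1 ≤ c v), (up tl hd D R (F \ G) v - K) := by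
      rw [← sum_add_distrib]
      exact sum_congr rfl fun v _ => by omega
    have h4 : ∑ a ∈ F, (up tl hd D R (F \ G) (p a) - K) ≤
        ∑ v ∈ S.filter (fun v => 1 ≤ c v), (up tl hd D R (F \ G) v - K) := by
      rw [← sum_image (f := fun v => up tl hd D R (F \ G) v - K) (p_inj hp)]
      refine sum_le_sum_of_subset fun v hv => ?_
      obtain ⟨a, ha, rfl⟩ := mem_image.1 hv
      exact mem_filter.2 ⟨(hp a ha).1, (hp a ha).2.1⟩
    have h5 : (F \ G).card * K ≤ F.card * K := Nat.mul_le_mul_right _ (card_le_card sdiff_subset)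
    omega
  have k1 := key G hG hG'
  have k2 := key G' (hG1.trans sdiff_subset) hG1'
  have k3 : ∑ _a ∈ F.filter (fun a => (lv S R (F.erase a) 0).card < θ), 22 * K ≤
      ∑ a ∈ F, ((up tl hd D R (F \ G) (p a) - K) + (up tl hd D R (F \ G') (p a) - K)) := by
    refine le_trans (sum_le_sum fun a ha => ?_) (sum_le_sum_of_subset (filter_subset _ F))
    obtain ⟨ha, hs⟩ := mem_filter.1 ha
    have e1 := H.rich _ (hp a ha).1 (hp a ha).2.1 _ (lv_sub _ 0) hs
    have e2 : ex tl hd D (p a) (lv S R (F.erase a) 0) ≤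
        up tl hd D R (F \ G) (p a) + up tl hd D R (F \ G') (p a) := by
      rw [ex_eq, up, up, ← sum_add_distrib]
      refine sum_le_sum fun e he => ?_
      by_cases h : hd e ∈ lv S R (F.erase a) 0
      · rw [if_neg (not_not.2 h)]; exact Nat.zero_le _
      · rw [if_pos h]
        rw [mem_lv0, not_and] at h
        have h' := h (H.hD e (mem_filter.1 he).1)
        push Not at h'
        obtain ⟨b, hb, hb'⟩ := h'
        obtain ⟨hba, hb⟩ := mem_erase.1 hb
        have aux : ∀ G : Finset V, b ∉ G → ¬ miss R (F \ G) (hd e) ⊆ miss R (F \ G) (p a) :=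
          fun G hG hs => (mem_filter.1 (hs (mem_filter.2 ⟨mem_sdiff.2 ⟨hb, hG⟩, hb'⟩))).2
            ((hp a ha).2.2.2 b hb hba)
        by_cases hG : b ∈ G
        · rw [if_neg (aux G' fun h => (mem_sdiff.1 (hG1 h)).2 hG)]; omega
        · rw [if_neg (aux G hG)]; omega
    omega
  rw [sum_const, smul_eq_mul, sum_add_distrib, ← mul_assoc] at k3
  have k4 : (F.filter fun a => (lv S R (F.erase a) 0).card < θ).card * 22 * K ≤
      F.card * 2 * K := by rw [mul_assoc F.card, mul_left_comm F.card]; omega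
  have := Nat.le_of_mul_le_mul_right k4 H.hK
  omega

lemma cheap (hM : 12 ≤ F.card) (hC : ∀ v ∈ lv S R F 0, c v = 0) :
    ∃ a ∈ F, θ ≤ (lv S R (F.erase a) 0).card ∧ mval c tl hd D (lv S R (F.erase a) 0) ≤
      ∑ v ∈ S \ lv S R (F.erase a) 0, dem v + 10 * K := by
  have h1 := H.small hp hM
  set L := F.filter fun a => ¬ (lv S R (F.erase a) 0).card < θ with hL
  have h2 : (F.filter fun a => (lv S R (F.erase a) 0).card < θ).card + L.card = F.card :=
    card_filter_add_card_filter_not _
  have hY : ∀ a v, v ∈ lv S R (F.erase a) 0 ↔ v ∈ S ∧ miss R F v ⊆ {a} := fun a v => by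
    rw [mem_lv0]
    refine and_congr_right fun _ => ⟨fun h b hb => ?_, fun h b hb => ?_⟩
    · by_contra hn
      exact (mem_filter.1 hb).2 (h b (mem_erase.2 ⟨fun e => hn (by simp [e]), (mem_filter.1 hb).1⟩))
    · by_contra hn
      exact (mem_erase.1 hb).1 (mem_singleton.1 (h (mem_filter.2 ⟨(mem_erase.1 hb).2, hn⟩)))
  have hone : ∀ v ∈ S, v ∉ lv S R F 0 → ∀ a, v ∈ lv S R (F.erase a) 0 → miss R F v = {a} := by
    intro v hv h0 a ha
    refine (subset_singleton_iff.1 ((hY a v).1 ha).2).resolve_left fun e => h0 ?_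
    exact mem_filter.2 ⟨hv, by rw [e]; exact le_rfl⟩
  have hcnt : ∀ v ∈ S, v ∉ lv S R F 0 →
      (L.filter fun a => v ∈ lv S R (F.erase a) 0).card ≤ 1 := fun v hv h0 =>
    card_le_one.2 fun a ha b hb => singleton_injective
      ((hone v hv h0 a (mem_filter.1 ha).2).symm.trans (hone v hv h0 b (mem_filter.1 hb).2))
  obtain ⟨a₀, ha₀⟩ : L.Nonempty := card_pos.1 (by omega)
  set Φ := ∑ v ∈ S \ lv S R F 0, dem v with hΦ
  have h3 := H.level F subset_rfl 2 Φ
    (fun t ht => (not_lt.1 (mem_filter.1 ha₀).2).trans (card_le_card fun v hv =>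
      mem_filter.2 ⟨((hY _ v).1 hv).1, (card_le_card ((hY _ v).1 hv).2).trans
        (by rw [card_singleton]; omega)⟩))
    (fun t _ => sum_le_sum_of_subset (sdiff_subset_sdiff subset_rfl (lv_mono _ (Nat.zero_le t))))
  have h4 : ∑ v ∈ S.filter (fun v => 1 ≤ c v),
      (if 2 ≤ (miss R F v).card then min K (up tl hd D R F v) else 0) +
      ∑ a ∈ L, mval c tl hd D (lv S R (F.erase a) 0) ≤
      ∑ v ∈ S.filter (fun v => 1 ≤ c v), up tl hd D R F v := by
    simp only [mval, fun a => sum_ind (lv_sub (S := S) (R := R) (F.erase a) 0)]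
    rw [sum_comm, sum_filter, sum_filter, ← sum_add_distrib]
    refine sum_le_sum fun v hv => ?_
    by_cases h : 1 ≤ c v
    · have h0 : v ∉ lv S R F 0 := fun h' => by have := hC v h'; omega
      rw [if_pos h, if_pos h, ← sum_filter]
      have e : ∑ a ∈ L.filter (fun a => v ∈ lv S R (F.erase a) 0),
          min (c v) (ex tl hd D v (lv S R (F.erase a) 0)) ≤
          (L.filter fun a => v ∈ lv S R (F.erase a) 0).card * up tl hd D R F v := by
        rw [← smul_eq_mul, ← sum_const]
        refine sum_le_sum fun a ha => (min_le_right _ _).trans ?_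
        rw [ex_eq, up, hone v hv h0 a (mem_filter.1 ha).2]
        refine sum_le_sum fun e he => ?_
        by_cases h' : miss R F (hd e) ⊆ {a}
        · rw [if_pos h', if_neg (not_not.2 ((hY a _).2 ⟨H.hD e (mem_filter.1 he).1, h'⟩))]
        · rw [if_neg h']; split_ifs <;> omega
      split_ifs with h'
      · rw [filter_eq_empty_iff.2 fun a _ ha => by
          rw [hone v hv h0 a ha, card_singleton] at h'; omega, sum_empty]
        omega
      · have := Nat.mul_le_mul_right (up tl hd D R F v) (hcnt v hv h0)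
        omega
    · rw [if_neg h, if_neg h, zero_add]
      exact (sum_eq_zero fun a _ => by split_ifs <;> omega).le
  have h5 : L.card * Φ ≤ ∑ a ∈ L, ∑ v ∈ S \ lv S R (F.erase a) 0, dem v + Φ := by
    simp only [hΦ, fun a => sum_ind (sdiff_subset (s := S) (t := lv S R (F.erase a) 0)) dem,
      sum_ind (sdiff_subset (s := S) (t := lv S R F 0)) dem]
    rw [sum_comm, mul_sum, ← sum_add_distrib]
    refine sum_le_sum fun v hv => ?_
    split_ifs with h
    · rw [← sum_filter, sum_const, smul_eq_mul, ← add_one_mul]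
      refine Nat.mul_le_mul_right _ ?_
      have e1 := hcnt v hv (mem_sdiff.1 h).2
      have e2 := card_filter_add_card_filter_not (s := L) fun a => v ∈ lv S R (F.erase a) 0
      have e3 : L.filter (fun a => v ∈ S \ lv S R (F.erase a) 0) =
          L.filter fun a => ¬ v ∈ lv S R (F.erase a) 0 := by
        ext a; simp [hv]
      rw [e3]
      omega
    · exact Nat.zero_le _
  by_contra hn
  push Not at hn
  have h6 : ∑ a ∈ L, (∑ v ∈ S \ lv S R (F.erase a) 0, dem v + (10 * K + 1)) ≤
      ∑ a ∈ L, mval c tl hd D (lv S R (F.erase a) 0) :=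
    sum_le_sum fun a ha => hn a (mem_filter.1 ha).1 (not_lt.1 (mem_filter.1 ha).2)
  rw [sum_add_distrib, sum_const, smul_eq_mul, mul_add, mul_one, ← mul_assoc] at h6
  have h7 : 3 * Φ ≤ L.card * Φ := Nat.mul_le_mul_right _ (by omega)
  have h8 : F.card * K ≤ L.card * 10 * K := Nat.mul_le_mul_right _ (by omega)
  omega

end Hy

end TL

open TL in
theorem tl2 : TL2Stmt := by
  intro V α _ tl hd D S c dem θ K hK hD hc hdead big rich adm hbad
  choose! R hR using hbad
  obtain ⟨F, hF, hmin⟩ := exists_min_image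
    (((S.filter fun v => 1 ≤ c v).powerset).filter fun F => ∀ v ∈ lv S R F 0, c v = 0) card
    ⟨S.filter fun v => 1 ≤ c v, mem_filter.2 ⟨mem_powerset_self _, fun v hv => by
      by_contra h
      have h1 := mem_lv0.1 hv
      have h2 : 1 ≤ c v := by omega
      exact (hR v h1.1 h2).2.2.1 (h1.2 v (mem_filter.2 ⟨h1.1, h2⟩))⟩⟩
  obtain ⟨hF, hC⟩ := mem_filter.1 hF
  have hF' := mem_powerset.1 hF
  have hR' := fun b (hb : b ∈ F) => hR b (mem_filter.1 (hF' hb)).1 (mem_filter.1 (hF' hb)).2
  have H : Hy tl hd D S c dem θ K R F := ⟨hK, hD, hc, big, rich, adm, fun b hb => (hR' b hb).1,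
    fun b hb => (hR' b hb).2.1, fun b hb => (hR' b hb).2.2.2.le, fun b hb v hv h1 => by
      by_contra h
      have e1 := excess (tl := tl) (hd := hd) (D := D) (c := c) (K := K) (q := K)
        (singleton_subset_iff.2 hv) fun w hw => by
          rw [mem_singleton.1 hw]
          have := hc v ((hR' b hb).1 hv)
          omega
      have e2 := adm _ (hR' b hb).1 (hR' b hb).2.1
      have e3 := (hR' b hb).2.2.2
      rw [card_singleton] at e1
      omega⟩
  have hs : (lv S R F 0).card < θ :=
    (card_le_card fun v hv => mem_filter.2 ⟨lv_sub F 0 hv, hC v hv⟩).trans_lt hdead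
  by_cases hM : 12 ≤ F.card
  · have hp : ∀ a ∈ F, ∃ v, v ∈ S ∧ 1 ≤ c v ∧ v ∉ R a ∧ ∀ b ∈ F, b ≠ a → v ∈ R b := by
      intro a ha
      by_contra hn
      have := hmin (F.erase a) (mem_filter.2 ⟨mem_powerset.2 ((erase_subset a F).trans hF'),
        fun v hv => by
          by_contra h
          have h1 := mem_lv0.1 hv
          have h2 : ∀ b ∈ F, b ≠ a → v ∈ R b := fun b hb e => h1.2 b (mem_erase.2 ⟨e, hb⟩)
          refine hn ⟨v, h1.1, by omega, fun h3 => h (hC v (mem_lv0.2 ⟨h1.1, fun b hb => ?_⟩)), h2⟩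
          by_cases e : b = a
          · exact e ▸ h3
          · exact h2 b hb e⟩)
      rw [card_erase_of_mem ha] at this
      omega
    choose! p hp using hp
    obtain ⟨a, ha, h1, h2⟩ := H.cheap hp hM hC
    have h3 := H.bad a ha
    refine ⟨_, R a, lv_sub _ 0, H.sub a ha, h1, H.lg a ha, ?_, h2, by omega⟩
    rw [← lv0_insert, insert_erase ha]
    exact hs
  · obtain ⟨J, a, hJ, ha, h1, h2, h3⟩ := H.first F subset_rfl hs
    have h4 := H.chain J hJ
    have h5 := H.bad a ha
    have h6 : J.card * K ≤ 10 * K := Nat.mul_le_mul_right _ (by omega)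
    exact ⟨_, R a, lv_sub _ 0, H.sub a ha, h2, H.lg a ha, h3, by omega, by omega⟩

end Pool.Agent.MP_b9875a_co.H55
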